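import Pool.Agent.H515.CP.Prod

/-!
# The equal degree property passes to quotients of finite direct products
-/

set_option autoImplicit false
set_option linter.style.haveILetI false
set_option linter.unusedSectionVars false

open scoped BigOperators Classical commutatorElement
open CategoryTheory Pool.Agent.H254R3.IN Pool.Agent.H515.MB Pool.Agent.H515.SP

noncomputable section

namespace Pool.Agent.H515.CP

lemma char_one_ne {A : Type} [Group A] [Fintype A] (U : FDRep ℂ A) (hU : Simple U) :
    U.character 1 ≠ 0 := by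
  haveI := irr_nontrivial U.ρ (irr_of_simple U hU)
  rw [FDRep.char_one]
  have h : 0 < Module.finrank ℂ U := Module.finrank_pos
  exact_mod_cast h.ne'

lemma norm_self {A : Type} [Group A] [Fintype A] (U : FDRep ℂ A) (hU : Simple U) :
    ∑ x : A, U.character x * (starRingEnd ℂ) (U.character x) = Nat.card A := by
  rw [orth_star (isIrr_of_simple U hU) (isIrr_of_simple U hU), if_pos rfl]

/-- degrees multiply -/
lemma deg_prod {A B : Type} [Group A] [Fintype A] [Group B] [Fintype B]
    (V : FDRep ℂ (A × B)) (hV : Simple V) (U : FDRep ℂ A) (hU : Simple U)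
    (X : FDRep ℂ B) (hX : Simple X)
    (h1 : ∀ x, U.character x * V.character 1 = V.character (x, 1) * U.character 1)
    (h2 : ∀ y, X.character y * V.character 1 = V.character (1, y) * X.character 1) :
    V.character 1 = U.character 1 * X.character 1 := by
  have hirr := irr_of_simple V hV
  have hm : ∀ x y, V.character (x, y) * V.character 1 =
      V.character (x, 1) * V.character (1, y) := by
    intro x y
    have := char_mul V.ρ hirr (MonoidHom.inl A B) (MonoidHom.inr A B)
      (fun x y => by simp) (fun g => ⟨g.1, g.2, by simp⟩) x y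
    simp only [MonoidHom.inl_apply, MonoidHom.inr_apply, Prod.mk_mul_mk, mul_one, one_mul] at this
    exact this
  have hD := char_one_ne V hV
  obtain ⟨nD, eD⟩ : ∃ n : ℕ, V.character 1 = n := ⟨_, FDRep.char_one V⟩
  obtain ⟨nu, eu⟩ : ∃ n : ℕ, U.character 1 = n := ⟨_, FDRep.char_one U⟩
  obtain ⟨nx, ex⟩ : ∃ n : ℕ, X.character 1 = n := ⟨_, FDRep.char_one X⟩
  rw [eD] at hD hm
  simp only [eD, eu, ex] at h1 h2
  have key : ∀ g : A × B, V.character g * (nu * nx) = nD * (U.character g.1 * X.character g.2) := by
    rintro ⟨x, y⟩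
    apply mul_left_cancel₀ hD
    linear_combination (nu * nx : ℂ) * hm x y - (V.character (1, y) * nx) * h1 x -
      (U.character x * nD) * h2 y
  have e1 := norm_self V hV
  have e2 := norm_self U hU
  have e3 := norm_self X hX
  have e4 : ((nu * nx : ℂ) ^ 2) * ∑ g : A × B, V.character g * (starRingEnd ℂ) (V.character g) =
      (nD : ℂ) ^ 2 * ((∑ x : A, U.character x * (starRingEnd ℂ) (U.character x)) *
        ∑ y : B, X.character y * (starRingEnd ℂ) (X.character y)) := by
    rw [Finset.sum_mul_sum, Finset.mul_sum, ← Finset.sum_product', Finset.mul_sum,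
      Finset.univ_product_univ]
    refine Finset.sum_congr rfl fun g _ => ?_
    have k1 := key g
    have k2 := congrArg (starRingEnd ℂ) k1
    simp only [map_mul, map_natCast] at k2
    calc (nu * nx : ℂ) ^ 2 * (V.character g * (starRingEnd ℂ) (V.character g))
        = (V.character g * (nu * nx)) * ((starRingEnd ℂ) (V.character g) * (nu * nx)) := by ring
      _ = _ := by
        rw [k1, k2]
        ring
  rw [e1, e2, e3, Nat.card_prod] at e4
  push_cast at e4
  have hA : (Nat.card A : ℂ) ≠ 0 := by exact_mod_cast Nat.card_pos.ne'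
  have hB : (Nat.card B : ℂ) ≠ 0 := by exact_mod_cast Nat.card_pos.ne'
  have e5 : ((nu * nx : ℂ) ^ 2) = (nD : ℂ) ^ 2 :=
    mul_right_cancel₀ (mul_ne_zero hA hB) e4
  have e6 : (nu * nx) ^ 2 = nD ^ 2 := by exact_mod_cast e5
  have e7 : nu * nx = nD := Nat.pow_left_injective (n := 2) (by norm_num) e6
  rw [eD, eu, ex, ← e7]
  push_cast
  ring

lemma deg_eq_of_prop {A : Type} [Group A] [Fintype A] (U U' : FDRep ℂ A) (hU : Simple U)
    (hU' : Simple U')
    (h : ∃ a b : ℂ, (a ≠ 0 ∨ b ≠ 0) ∧ ∀ g : A, a * U.character g = b * U'.character g) :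
    U.character 1 = U'.character 1 := by
  by_cases hne : U.character = U'.character
  · rw [hne]
  · exfalso
    obtain ⟨a, b, hab, h⟩ := h
    have hA : (Nat.card A : ℂ) ≠ 0 := by exact_mod_cast Nat.card_pos.ne'
    have i1 := isIrr_of_simple U hU
    have i2 := isIrr_of_simple U' hU'
    have o12 := orth_star i1 i2
    rw [if_neg hne] at o12
    have o21 := orth_star i2 i1
    rw [if_neg (Ne.symm hne)] at o21
    have o11 := norm_self U hU
    have o22 := norm_self U' hU'
    have ha : a = 0 := by
      have e : a * Nat.card A = b * 0 := by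
        rw [← o11, ← o21, Finset.mul_sum, Finset.mul_sum]
        refine Finset.sum_congr rfl fun x _ => ?_
        rw [← mul_assoc, h, mul_assoc]
      rw [mul_zero] at e
      exact (mul_eq_zero.mp e).resolve_right hA
    have hb : b = 0 := by
      have e : a * 0 = b * Nat.card A := by
        rw [← o22, ← o12, Finset.mul_sum, Finset.mul_sum]
        refine Finset.sum_congr rfl fun x _ => ?_
        rw [← mul_assoc, h, mul_assoc]
      rw [mul_zero] at e
      exact (mul_eq_zero.mp e.symm).resolve_right hA
    rcases hab with h' | h'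
    · exact h' ha
    · exact h' hb

lemma factor {G A : Type} [Group G] [Group A] [Fintype A] (hA : EqualDegrees A)
    (φ ψ : G → ℂ) (a : A →* G) {r s d : ℕ} (hr : 0 < r) (hs : 0 < s) (hd : 0 < d)
    (d1 : φ 1 = r * d) (d2 : ψ 1 = s * d)
    (hsemi : ∀ x, (s * φ x - r * ψ x) * (r * φ x + s * ψ x) = 0)
    (U U' : FDRep ℂ A) (hU : Simple U) (hU' : Simple U')
    (e : ∀ x, U.character x * φ 1 = φ (a x) * U.character 1)
    (e' : ∀ x, U'.character x * ψ 1 = ψ (a x) * U'.character 1) :
    U.character 1 = U'.character 1 := by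
  have hrc : (r : ℂ) ≠ 0 := by exact_mod_cast hr.ne'
  have hsc : (s : ℂ) ≠ 0 := by exact_mod_cast hs.ne'
  have hdc : (d : ℂ) ≠ 0 := by exact_mod_cast hd.ne'
  have hu := char_one_ne U hU
  have hu' := char_one_ne U' hU'
  rw [d1] at e
  rw [d2] at e'
  by_cases hp : ∃ a b : ℂ, (a ≠ 0 ∨ b ≠ 0) ∧ ∀ g : A, a * U.character g = b * U'.character g
  · exact deg_eq_of_prop U U' hU hU' hp
  · apply hA U U' hU hU' hp
    refine ⟨{x | U'.character 1 * U.character x = U.character 1 * U'.character x}, ?_,
      ⟨U'.character 1, U.character 1, Or.inl hu', fun g hg => hg⟩,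
      ⟨r ^ 2 * U'.character 1, -(s ^ 2 * U.character 1),
        Or.inl (mul_ne_zero (pow_ne_zero 2 hrc) hu'), fun g hg => ?_⟩⟩
    · intro g h hg
      have hg' : U'.character 1 * U.character g = U.character 1 * U'.character g := hg
      change U'.character 1 * U.character (h * g * h⁻¹) = U.character 1 * U'.character (h * g * h⁻¹)
      rw [FDRep.char_conj, FDRep.char_conj, hg']
    · have hg' : ¬ (U'.character 1 * U.character g = U.character 1 * U'.character g) := hg
      rcases mul_eq_zero.mp (hsemi (a g)) with h3 | h3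
      · exfalso
        apply hg'
        have h4 : (r * s * d : ℂ) * (U'.character 1 * U.character g) =
            (r * s * d : ℂ) * (U.character 1 * U'.character g) := by
          linear_combination (s * U'.character 1) * e g - (r * U.character 1) * e' g +
            (U.character 1 * U'.character 1) * h3
        exact mul_left_cancel₀ (mul_ne_zero (mul_ne_zero hrc hsc) hdc) h4
      · apply mul_left_cancel₀ hdc
        linear_combination (r * U'.character 1) * e g + (s * U.character 1) * e' g +
          (U.character 1 * U'.character 1) * h3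

/-- direct products of two groups -/
theorem EqualDegrees.prod {A B : Type} [Group A] [Fintype A] [Group B] [Fintype B]
    (hA : EqualDegrees A) (hB : EqualDegrees B) : EqualDegrees (A × B) := by
  intro V W hV hW hnp hsp
  obtain ⟨t, M, r, s, d, h⟩ := exists_pr_of_semi V W hV hW hnp hsp
  have hsemi : ∀ x, (s * V.character x - r * W.character x) *
      (r * V.character x + s * W.character x) = 0 := by
    intro x
    by_cases hx : x ∈ M
    · rw [h.on1 x hx, h.on2 x hx]; ring
    · rw [h.off1 x hx, h.off2 x hx]; ring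
  have iV := irr_of_simple V hV
  have iW := irr_of_simple W hW
  have c1 : ∀ (x : A) (y : B), MonoidHom.inl A B x * MonoidHom.inr A B y =
      MonoidHom.inr A B y * MonoidHom.inl A B x := fun x y => by simp
  have s1 : ∀ g : A × B, ∃ x y, g = MonoidHom.inl A B x * MonoidHom.inr A B y :=
    fun g => ⟨g.1, g.2, by simp⟩
  have s2 : ∀ g : A × B, ∃ y x, g = MonoidHom.inr A B y * MonoidHom.inl A B x :=
    fun g => ⟨g.2, g.1, by simp⟩
  obtain ⟨U, hU, eU⟩ := exists_constituent V.ρ iV _ _ c1 s1
  obtain ⟨U', hU', eU'⟩ := exists_constituent W.ρ iW _ _ c1 s1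
  obtain ⟨X, hX, eX⟩ := exists_constituent V.ρ iV _ _ (fun y x => (c1 x y).symm) s2
  obtain ⟨X', hX', eX'⟩ := exists_constituent W.ρ iW _ _ (fun y x => (c1 x y).symm) s2
  have k1 : U.character 1 = U'.character 1 :=
    factor hA V.character W.character (MonoidHom.inl A B) h.rpos h.spos h.dpos h.deg1 h.deg2
      hsemi U U' hU hU' eU eU'
  have k2 : X.character 1 = X'.character 1 :=
    factor hB V.character W.character (MonoidHom.inr A B) h.rpos h.spos h.dpos h.deg1 h.deg2
      hsemi X X' hX hX' eX eX'
  rw [deg_prod V hV U hU X hX eU eX, deg_prod W hW U' hU' X' hX' eU' eX', k1, k2]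

/-- quotients -/
theorem EqualDegrees.of_surjective {X G : Type} [Group X] [Finite X] [Group G] [Finite G]
    (f : X →* G) (hf : Function.Surjective f) (hX : EqualDegrees X) : EqualDegrees G := by
  intro V W hV hW hnp hsp
  obtain ⟨M, hM, ⟨a, b, hab, h1⟩, ⟨a', b', hab', h2⟩⟩ := hsp
  have hsim : ∀ Y : FDRep ℂ G, Simple Y →
      Simple (FDRep.of (show Representation ℂ X Y from Y.ρ.comp f)) := by
    intro Y hY
    haveI := hY
    obtain ⟨v, hv⟩ := Pool.Agent.Helper199.RepDim.simple_nonzero Y
    haveI : Nontrivial Y := ⟨v, 0, hv⟩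
    apply Pool.Agent.Helper199.RepDim.simple_of_irred
    intro S hS
    by_cases hb : S = ⊥
    · exact Or.inl hb
    · right
      apply Pool.Agent.Helper199.RepDim.simple_top Y S _ hb
      intro g w hw
      obtain ⟨x, rfl⟩ := hf g
      exact hS x w hw
  have hch : ∀ (Y : FDRep ℂ G) (x : X),
      (FDRep.of (show Representation ℂ X Y from Y.ρ.comp f)).character x = Y.character (f x) :=
    fun Y x => rfl
  have key := hX (FDRep.of (show Representation ℂ X V from V.ρ.comp f))
    (FDRep.of (show Representation ℂ X W from W.ρ.comp f)) (hsim V hV) (hsim W hW) ?_ ?_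
  · rw [hch, hch, map_one] at key
    exact key
  · rintro ⟨c, c', hc, h⟩
    apply hnp
    refine ⟨c, c', hc, fun g => ?_⟩
    obtain ⟨x, rfl⟩ := hf g
    exact h x
  · refine ⟨f ⁻¹' M, ?_, ⟨a, b, hab, fun g hg => h1 (f g) hg⟩,
      ⟨a', b', hab', fun g hg => h2 (f g) hg⟩⟩
    intro g h hg
    have := hM (f g) (f h) hg
    rw [Set.mem_preimage, map_mul, map_mul, map_inv]
    exact this

end Pool.Agent.H515.CP
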