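import Pool.Agent.H515.CP.Closure

/-!
# Finite direct products, and three families of groups with the equal degree property
-/

set_option autoImplicit false
set_option linter.style.haveILetI false
set_option linter.unusedSectionVars false

open scoped BigOperators Classical commutatorElement
open CategoryTheory Pool.Agent.H254R3.IN Pool.Agent.H515.MB Pool.Agent.H515.SP

noncomputable section

namespace Pool.Agent.H515.CP

/-- order not divisible by the square of a prime `≡ 1 (mod 4)` -/
theorem EqualDegrees.of_no_sq {G : Type} [Group G] [Finite G]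
    (hG : ∀ p : ℕ, p.Prime → p % 4 = 1 → ¬ p ^ 2 ∣ Nat.card G) : EqualDegrees G := by
  intro V W hV hW hnp hsp
  haveI : Fintype G := Fintype.ofFinite G
  obtain ⟨t, M, r, s, d, h⟩ := exists_pr_of_semi V W hV hW hnp hsp
  by_contra hne
  have hrs : r ≠ s := by
    rintro rfl
    exact hne (by rw [h.deg1, h.deg2])
  have h1 := h.rad_dvd hrs
  obtain ⟨p, hp, hp4⟩ := exists_prime_one_mod_four h.cop h.rpos h.spos hrs
  apply hG p (Nat.prime_of_mem_primeFactors hp) hp4
  have h2 : p ∣ ∏ p ∈ (r ^ 2 + s ^ 2).primeFactors, p := Finset.dvd_prod_of_mem _ hp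
  have h3 : p ∣ r * s * d * (r ^ 2 + s ^ 2) :=
    (Nat.dvd_of_mem_primeFactors hp).trans (dvd_mul_left _ _)
  rw [pow_two]
  exact (mul_dvd_mul h2 h3).trans h1

/-- order not divisible by `rad(r² + s²) r s (r² + s²)` for coprime `r > s` -/
theorem EqualDegrees.of_card {G : Type} [Group G] [Finite G]
    (hG : ∀ r s : ℕ, 0 < s → s < r → Nat.Coprime r s →
      ¬ (∏ p ∈ (r ^ 2 + s ^ 2).primeFactors, p) * (r * s * (r ^ 2 + s ^ 2)) ∣ Nat.card G) :
    EqualDegrees G := by
  intro V W hV hW hnp hsp
  haveI : Fintype G := Fintype.ofFinite G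
  obtain ⟨t, M, r, s, d, h⟩ := exists_pr_of_semi V W hV hW hnp hsp
  by_contra hne
  have hrs : r ≠ s := by
    rintro rfl
    exact hne (by rw [h.deg1, h.deg2])
  have h1 := h.rad_dvd hrs
  have h2 : (∏ p ∈ (r ^ 2 + s ^ 2).primeFactors, p) * (r * s * (r ^ 2 + s ^ 2)) ∣ Nat.card G := by
    refine (mul_dvd_mul_left _ ?_).trans h1
    exact mul_dvd_mul_right (dvd_mul_right _ _) _
  rcases lt_or_gt_of_ne hrs with hlt | hlt
  · apply hG s r h.rpos hlt h.cop.symm
    rw [add_comm (s ^ 2), mul_comm s r]
    exact h2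
  · exact hG r s h.spos hlt h.cop h2

/-- groups of odd order -/
theorem EqualDegrees.of_odd {G : Type} [Group G] [Finite G] (hG : Odd (Nat.card G)) :
    EqualDegrees G := by
  apply EqualDegrees.of_card
  intro r s _ _ _ h
  have h1 : r * s * (r ^ 2 + s ^ 2) ∣ Nat.card G := (dvd_mul_left _ _).trans h
  have h2 : Odd (r * s * (r ^ 2 + s ^ 2)) := Odd.of_dvd_nat hG h1
  rw [Nat.odd_mul, Nat.odd_mul] at h2
  obtain ⟨⟨hr, hs⟩, hn⟩ := h2
  have h3 : Even (r ^ 2 + s ^ 2) := Odd.add_odd (hr.pow) (hs.pow)
  exact (Nat.not_even_iff_odd.mpr hn) h3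

/-- groups of prime power order -/
theorem EqualDegrees.of_pgroup {G : Type} [Group G] [Finite G] {p : ℕ} [hp : Fact p.Prime]
    (hG : IsPGroup p G) : EqualDegrees G := by
  intro V W hV hW hnp hsp
  haveI : Fintype G := Fintype.ofFinite G
  obtain ⟨t, M, r, s, d, h⟩ := exists_pr_of_semi V W hV hW hnp hsp
  by_contra hne
  have hrs : r ≠ s := by
    rintro rfl
    exact hne (by rw [h.deg1, h.deg2])
  obtain ⟨k, hk⟩ := hG.exists_card_eq
  have h1 := h.rad_dvd hrs
  rw [hk] at h1
  have hd : ∀ q : ℕ, q ∣ r * s * d * (r ^ 2 + s ^ 2) → q ≠ 1 → p ∣ q := by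
    intro q hq hq1
    have h2 : q ∣ p ^ k := hq.trans ((dvd_mul_left _ _).trans h1)
    obtain ⟨j, hj, rfl⟩ := (Nat.dvd_prime_pow hp.out).mp h2
    have : j ≠ 0 := by
      rintro rfl
      exact hq1 (pow_zero _)
    exact dvd_pow_self p this
  have hr := h.rpos
  have hs := h.spos
  have hn : p ∣ r ^ 2 + s ^ 2 := hd _ (dvd_mul_left _ _) (by nlinarith)
  have hr1 : r = 1 := by
    by_contra hr1
    have h2 : p ∣ r := hd r (by
      rw [mul_assoc, mul_assoc]
      exact dvd_mul_right _ _) hr1
    have h3 : p ∣ s ^ 2 := (Nat.dvd_add_right (dvd_pow h2 two_ne_zero)).mp hn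
    have h4 := Nat.dvd_gcd h2 (hp.out.dvd_of_dvd_pow h3)
    rw [h.cop] at h4
    exact hp.out.one_lt.ne' (Nat.dvd_one.mp h4)
  have hs1 : s = 1 := by
    by_contra hs1
    have h2 : p ∣ s := hd s (by
      rw [mul_comm r s, mul_assoc, mul_assoc]
      exact dvd_mul_right _ _) hs1
    have h3 : p ∣ r ^ 2 := (Nat.dvd_add_left (dvd_pow h2 two_ne_zero)).mp hn
    have h4 := Nat.dvd_gcd (hp.out.dvd_of_dvd_pow h3) h2
    rw [h.cop] at h4
    exact hp.out.one_lt.ne' (Nat.dvd_one.mp h4)
  exact hrs (hr1.trans hs1.symm)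

/-- metabelian groups -/
theorem EqualDegrees.of_metabelian {G : Type} [Group G] [Finite G]
    (hder : derivedSeries G 2 = ⊥) : EqualDegrees G := by
  intro V W hV hW hnp hsp
  haveI : Fintype G := Fintype.ofFinite G
  obtain ⟨t, M, r, s, d, h⟩ := exists_pr_of_semi V W hV hW hnp hsp
  have hirrV := irr_of_simple V hV
  have hirrW := irr_of_simple W hW
  have hsemi : ∀ x, (s * V.character x - r * W.character x) *
      (r * V.character x + s * W.character x) = 0 := by
    intro x
    by_cases hx : x ∈ M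
    · rw [h.on1 x hx, h.on2 x hx]; ring
    · rw [h.off1 x hx, h.off2 x hx]; ring
  have hd1 : Module.finrank ℂ V = r * d := by
    have := h.deg1
    rw [FDRep.char_one] at this
    exact_mod_cast this
  have hd2 : Module.finrank ℂ W = s * d := by
    have := h.deg2
    rw [FDRep.char_one] at this
    exact_mod_cast this
  have hcom : ∀ a b a' b' : G,
      (a * b * a⁻¹ * b⁻¹) * (a' * b' * a'⁻¹ * b'⁻¹) =
        (a' * b' * a'⁻¹ * b'⁻¹) * (a * b * a⁻¹ * b⁻¹) := by
    intro a b a' b'
    have m1 : ∀ u v : G, u * v * u⁻¹ * v⁻¹ ∈ derivedSeries G 1 := by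
      intro u v
      rw [derivedSeries_succ, derivedSeries_zero]
      exact Subgroup.commutator_mem_commutator (Subgroup.mem_top u) (Subgroup.mem_top v)
    have m2 : ⁅a * b * a⁻¹ * b⁻¹, a' * b' * a'⁻¹ * b'⁻¹⁆ ∈ derivedSeries G 2 := by
      rw [derivedSeries_succ]
      exact Subgroup.commutator_mem_commutator (m1 a b) (m1 a' b')
    rw [hder, Subgroup.mem_bot, commutatorElement_eq_one_iff_mul_comm] at m2
    exact m2
  have hcV : ∀ a b a' b' : G, V.ρ (a * b * a⁻¹ * b⁻¹) * V.ρ (a' * b' * a'⁻¹ * b'⁻¹) =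
      V.ρ (a' * b' * a'⁻¹ * b'⁻¹) * V.ρ (a * b * a⁻¹ * b⁻¹) := by
    intro a b a' b'
    rw [← map_mul, ← map_mul, hcom]
  have hcW : ∀ a b a' b' : G, W.ρ (a * b * a⁻¹ * b⁻¹) * W.ρ (a' * b' * a'⁻¹ * b'⁻¹) =
      W.ρ (a' * b' * a'⁻¹ * b'⁻¹) * W.ρ (a * b * a⁻¹ * b⁻¹) := by
    intro a b a' b'
    rw [← map_mul, ← map_mul, hcom]
  rcases lt_trichotomy s r with hlt | heq | hlt
  · exact absurd (main_aux V.ρ W.ρ hirrV hirrW h.cop hlt h.spos h.dpos hd1 hd2
      hsemi hcV) id
  · rw [FDRep.char_one, FDRep.char_one, hd1, hd2, heq]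
  · have hsemi' : ∀ x, (r * W.character x - s * V.character x) *
        (s * W.character x + r * V.character x) = 0 := fun x => by
      linear_combination -(hsemi x)
    exact absurd (main_aux W.ρ V.ρ hirrW hirrV h.cop.symm hlt h.rpos h.dpos
      hd2 hd1 hsemi' hcW) id

/-- finite direct products -/
theorem EqualDegrees.pi {ι : Type} [Finite ι] (A : ι → Type) [∀ i, Group (A i)]
    [∀ i, Finite (A i)] (h : ∀ i, EqualDegrees (A i)) : EqualDegrees (∀ i, A i) := by
  have key : ∀ ι : Type, Finite ι → (Finite ι ∧ ∀ (A : ι → Type)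
    [∀ i, Group (A i)] [∀ i, Finite (A i)], (∀ i, EqualDegrees (A i)) →
      EqualDegrees (∀ i, A i)) := by
    intro ι hι
    refine Finite.induction_empty_option (P := fun ι : Type => Finite ι ∧ ∀ (A : ι → Type)
      [∀ i, Group (A i)] [∀ i, Finite (A i)], (∀ i, EqualDegrees (A i)) →
        EqualDegrees (∀ i, A i)) ?_ ?_ ?_ ι
    · rintro α β e ⟨hα, ih⟩
      haveI : Finite β := Finite.of_equiv α e
      refine ⟨this, fun A _ _ h => ?_⟩
      have h1 : EqualDegrees (∀ a : α, A (e a)) := ih (fun a => A (e a)) fun a => h (e a)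
      let f : (∀ b, A b) →* ∀ a : α, A (e a) :=
        { toFun := fun y a => y (e a)
          map_one' := rfl
          map_mul' := fun _ _ => rfl }
      have hf : Function.Bijective f := by
        constructor
        · intro y z hyz
          funext b
          obtain ⟨a, rfl⟩ := e.surjective b
          exact congrFun hyz a
        · intro z
          refine ⟨Equiv.piCongrLeft A e z, ?_⟩
          funext a
          exact Equiv.piCongrLeft_apply_apply A e z a
      let F := (MulEquiv.ofBijective f hf).symm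
      exact EqualDegrees.of_surjective F.toMonoidHom F.surjective h1
    · refine ⟨inferInstance, ?_⟩
      intro A _ _ _
      apply EqualDegrees.of_no_sq
      intro p hp _ hd
      rw [Nat.card_unique] at hd
      exact hp.one_lt.ne' ((Nat.pow_eq_one.mp (Nat.dvd_one.mp hd)).resolve_right two_ne_zero)
    · rintro α _ ⟨hα, ih⟩
      refine ⟨inferInstance, ?_⟩
      intro A _ _ h
      have h1 : EqualDegrees (A none × ∀ a : α, A (some a)) := by
        haveI : Fintype (A none) := Fintype.ofFinite _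
        haveI : Fintype (∀ a : α, A (some a)) := Fintype.ofFinite _
        exact EqualDegrees.prod (h none) (ih (fun a => A (some a)) fun a => h (some a))
      let f : (A none × ∀ a : α, A (some a)) →* ∀ o, A o :=
        { toFun := fun z o => match o with
            | none => z.1
            | some a => z.2 a
          map_one' := by
            funext o
            cases o <;> rfl
          map_mul' := by
            intro y z
            funext o
            cases o <;> rfl }
      refine EqualDegrees.of_surjective f ?_ h1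
      intro y
      refine ⟨(y none, fun a => y (some a)), ?_⟩
      funext o
      cases o <;> rfl
  exact (key ι ‹_›).2 A h

/-- nilpotent groups -/
theorem EqualDegrees.of_nilpotent {G : Type} [Group G] [Finite G] [Group.IsNilpotent G] :
    EqualDegrees G := by
  obtain ⟨e⟩ := (Group.isNilpotent_of_finite_tfae (G := G).out 0 4 rfl rfl).mp ‹_›
  refine EqualDegrees.of_surjective e.toMonoidHom e.surjective ?_
  apply EqualDegrees.pi
  intro p
  apply EqualDegrees.pi
  intro P
  haveI : Fact (p : ℕ).Prime := ⟨Nat.prime_of_mem_primeFactors p.2⟩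
  exact EqualDegrees.of_pgroup P.isPGroup'

end Pool.Agent.H515.CP
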