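import Pool.Agent.H515.MB.Main

/-!
# Semiproportional irreducible characters of direct products and their quotients
-/

set_option autoImplicit false
set_option linter.style.haveILetI false
set_option linter.unusedSectionVars false

open scoped BigOperators Classical
open CategoryTheory Pool.Agent.H254R3.IN Pool.Agent.H515.MB

noncomputable section

namespace Pool.Agent.H515.CP

/-- `G` satisfies the conjecture: any two semiproportional irreducible complex characters of `G`
have the same degree (in the words of the frozen statement `S02965`). -/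
def EqualDegrees (G : Type) [Group G] : Prop :=
  ∀ V W : FDRep ℂ G, Simple V → Simple W →
    (¬ ∃ a b : ℂ, (a ≠ 0 ∨ b ≠ 0) ∧ ∀ g : G, a * V.character g = b * W.character g) →
    (∃ M : Set G, (∀ g h : G, g ∈ M → h * g * h⁻¹ ∈ M) ∧
      (∃ a b : ℂ, (a ≠ 0 ∨ b ≠ 0) ∧ ∀ g : G, g ∈ M → a * V.character g = b * W.character g) ∧
      (∃ a b : ℂ, (a ≠ 0 ∨ b ≠ 0) ∧ ∀ g : G, g ∉ M → a * V.character g = b * W.character g)) →
    V.character 1 = W.character 1

section rep

variable {V : Type} [AddCommGroup V] [Module ℂ V] [FiniteDimensional ℂ V]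

/-- a minimal invariant subspace -/
lemma exists_min {A : Type} [Group A] (σ : Representation ℂ A V) [Nontrivial V] :
    ∃ S : Submodule ℂ V, S ≠ ⊥ ∧ (∀ a, ∀ v ∈ S, σ a v ∈ S) ∧
      ∀ T : Submodule ℂ V, T ≤ S → (∀ a, ∀ v ∈ T, σ a v ∈ T) → T = ⊥ ∨ T = S := by
  have hne : ({S : Submodule ℂ V | S ≠ ⊥ ∧ ∀ a, ∀ v ∈ S, σ a v ∈ S}).Nonempty :=
    ⟨⊤, top_ne_bot, fun _ _ _ => trivial⟩
  obtain ⟨S, hS, hmin⟩ := (wellFounded_lt (α := Submodule ℂ V)).has_min _ hne
  refine ⟨S, hS.1, hS.2, fun T hT hTs => ?_⟩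
  by_cases h : T = ⊥
  · exact Or.inl h
  · right
    by_contra hne'
    exact hmin T ⟨h, hTs⟩ (lt_of_le_of_ne hT hne')

/-- the class sums of a factor act as scalars -/
lemma classSum {G A B : Type} [Group G] [Fintype G] [Group A] [Fintype A] [Group B]
    (ρ : Representation ℂ G V) (hρ : ρ.IsIrreducible) (a : A →* G) (b : B →* G)
    (hcomm : ∀ x y, a x * b y = b y * a x) (hsurj : ∀ g, ∃ x y, g = a x * b y) (x : A) :
    ∃ c : ℂ, ∑ z : A, ρ (a (z * x * z⁻¹)) = c • (1 : Module.End ℂ V) ∧
      c * ρ.character 1 = Nat.card A * ρ.character (a x) := by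
  set T : Module.End ℂ V := ∑ z : A, ρ (a (z * x * z⁻¹)) with hT
  have h1 : ∀ w : A, T * ρ (a w) = ρ (a w) * T := by
    intro w
    rw [hT, Finset.sum_mul, Finset.mul_sum]
    rw [← Equiv.sum_comp (Equiv.mulLeft w) fun z => ρ (a (z * x * z⁻¹)) * ρ (a w)]
    refine Finset.sum_congr rfl fun z _ => ?_
    change ρ (a (w * z * x * (w * z)⁻¹)) * ρ (a w) = _
    rw [← map_mul, ← map_mul, ← map_mul, ← map_mul]
    congr 2
    group
  have h2 : ∀ y : B, T * ρ (b y) = ρ (b y) * T := by
    intro y
    rw [hT, Finset.sum_mul, Finset.mul_sum]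
    refine Finset.sum_congr rfl fun z _ => ?_
    rw [← map_mul, ← map_mul, hcomm]
  have h3 : ∀ g : G, T * ρ g = ρ g * T := by
    intro g
    obtain ⟨u, y, rfl⟩ := hsurj g
    rw [map_mul, ← mul_assoc, h1, mul_assoc, h2, ← mul_assoc]
  obtain ⟨c, hc⟩ := schur ρ hρ T (fun g v => by
    exact congrArg (fun S : Module.End ℂ V => S v) (h3 g))
  refine ⟨c, hc, ?_⟩
  have h4 : LinearMap.trace ℂ V T = Nat.card A * ρ.character (a x) := by
    rw [hT, map_sum]
    have : ∀ z : A, LinearMap.trace ℂ V (ρ (a (z * x * z⁻¹))) = ρ.character (a x) := by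
      intro z
      have e : a (z * x * z⁻¹) = a z * a x * (a z)⁻¹ := by rw [map_mul, map_mul, map_inv]
      rw [e]
      exact ρ.char_conj (a x) (a z)
    rw [Finset.sum_congr rfl fun z _ => this z, Finset.sum_const, nsmul_eq_mul,
      Finset.card_univ, Nat.card_eq_fintype_card]
  rw [← h4, hc, map_smul, smul_eq_mul]
  congr 1
  rw [Representation.char_one]
  exact (LinearMap.trace_one (R := ℂ) (M := V)).symm

/-- multiplicativity -/
lemma char_mul {G A B : Type} [Group G] [Fintype G] [Group A] [Fintype A] [Group B]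
    (ρ : Representation ℂ G V) (hρ : ρ.IsIrreducible) (a : A →* G) (b : B →* G)
    (hcomm : ∀ x y, a x * b y = b y * a x) (hsurj : ∀ g, ∃ x y, g = a x * b y) (x : A) (y : B) :
    ρ.character (a x * b y) * ρ.character 1 = ρ.character (a x) * ρ.character (b y) := by
  obtain ⟨c, hc, hc'⟩ := classSum ρ hρ a b hcomm hsurj x
  have hA : (Nat.card A : ℂ) ≠ 0 := by exact_mod_cast Nat.card_pos.ne'
  have h1 : LinearMap.trace ℂ V ((∑ z : A, ρ (a (z * x * z⁻¹))) * ρ (b y)) =
      Nat.card A * ρ.character (a x * b y) := by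
    rw [Finset.sum_mul, map_sum]
    have : ∀ z : A, LinearMap.trace ℂ V (ρ (a (z * x * z⁻¹)) * ρ (b y)) =
        ρ.character (a x * b y) := by
      intro z
      have e : a (z * x * z⁻¹) * b y = a z * (a x * b y) * (a z)⁻¹ := by
        have h := hcomm z⁻¹ y
        rw [map_inv] at h
        rw [map_mul, map_mul, map_inv, mul_assoc (a z * a x), h]
        group
      rw [← map_mul, e]
      exact ρ.char_conj (a x * b y) (a z)
    rw [Finset.sum_congr rfl fun z _ => this z, Finset.sum_const, nsmul_eq_mul,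
      Finset.card_univ, Nat.card_eq_fintype_card]
  have h2 : LinearMap.trace ℂ V ((∑ z : A, ρ (a (z * x * z⁻¹))) * ρ (b y)) =
      c * ρ.character (b y) := by
    rw [hc, smul_mul_assoc, one_mul, map_smul, smul_eq_mul]
    rfl
  apply mul_left_cancel₀ hA
  linear_combination (ρ.character (b y)) * hc' - (ρ.character 1) * h1 + (ρ.character 1) * h2

/-- restriction to a factor: a constituent -/
lemma exists_constituent {G A B : Type} [Group G] [Fintype G] [Group A] [Fintype A] [Group B]
    (ρ : Representation ℂ G V) (hρ : ρ.IsIrreducible) (a : A →* G) (b : B →* G)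
    (hcomm : ∀ x y, a x * b y = b y * a x) (hsurj : ∀ g, ∃ x y, g = a x * b y) :
    ∃ U : FDRep ℂ A, Simple U ∧ ∀ x : A,
      U.character x * ρ.character 1 = ρ.character (a x) * U.character 1 := by
  haveI := irr_nontrivial ρ hρ
  obtain ⟨S, hS0, hSi, hSm⟩ := exists_min (ρ.comp a)
  let τ : Representation ℂ A S :=
    { toFun := fun g => (ρ (a g)).restrict (hSi g)
      map_one' := by ext w; simp
      map_mul' := fun g h => by ext w; simp }
  have hτ : ∀ g (v : S), ((τ g v : S) : V) = ρ (a g) v := fun _ _ => rfl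
  haveI : Nontrivial S := Submodule.nontrivial_iff_ne_bot.mpr hS0
  have hsimple : Simple (FDRep.of τ) := by
    apply Pool.Agent.Helper199.RepDim.simple_of_irred
    intro W hW
    rcases hSm (W.map S.subtype) (Submodule.map_subtype_le S W) (by
      rintro g _ ⟨w, hw, rfl⟩
      exact ⟨τ g w, hW g w hw, rfl⟩) with h | h
    · left
      apply Submodule.map_injective_of_injective S.injective_subtype
      rw [h, Submodule.map_bot]
    · right
      rw [eq_top_iff]
      intro w _
      have h1 : (w : V) ∈ W.map S.subtype := by rw [h]; exact w.2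
      obtain ⟨w', hw', e⟩ := h1
      have : w' = w := S.injective_subtype e
      rwa [← this]
  refine ⟨FDRep.of τ, hsimple, fun x => ?_⟩
  obtain ⟨c, hc, hc'⟩ := classSum ρ hρ a b hcomm hsurj x
  have hA : (Nat.card A : ℂ) ≠ 0 := by exact_mod_cast Nat.card_pos.ne'
  have h1 : ∑ z : A, τ (z * x * z⁻¹) = c • (1 : Module.End ℂ S) := by
    ext v
    have h2 := congrArg (fun T : Module.End ℂ V => T (v : V)) hc
    simp only [LinearMap.sum_apply, LinearMap.smul_apply, Module.End.one_apply] at h2 ⊢
    rw [Submodule.coe_smul, ← h2, Submodule.coe_sum]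
    rfl
  have h2 : (Nat.card A : ℂ) * τ.character x = c * τ.character 1 := by
    have h3 := congrArg (LinearMap.trace ℂ S) h1
    rw [map_sum, map_smul, smul_eq_mul] at h3
    have h4 : ∀ z : A, LinearMap.trace ℂ S (τ (z * x * z⁻¹)) = τ.character x := fun z =>
      τ.char_conj x z
    rw [Finset.sum_congr rfl fun z _ => h4 z, Finset.sum_const, nsmul_eq_mul,
      Finset.card_univ, ← Nat.card_eq_fintype_card] at h3
    rw [h3]
    congr 1
    rw [Representation.char_one]
    exact LinearMap.trace_one (R := ℂ) (M := S)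
  change τ.character x * ρ.character 1 = ρ.character (a x) * τ.character 1
  apply mul_left_cancel₀ hA
  linear_combination (ρ.character 1) * h2 + (τ.character 1) * hc'

end rep

end Pool.Agent.H515.CP
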